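import Pool.Agent.helper70.FI4E.SpecK

set_option autoImplicit false

namespace Pool.Agent.FI4E

open Pool.Agent.helper58.DC Pool.Agent.DI Pool.Agent.GR Pool.Agent.OB Pool.Agent.DR Pool.Agent.FI Pool.Agent.FI3 Pool.Agent.FI4

theorem EAU_nz {G : Type} [Group G] (α : MulAut G) (P : Subgroup G) (hP : am α P = P) (x : G) :
    α⁻¹ x ∈ Subgroup.normalizer (P : Set G) ↔ x ∈ Subgroup.normalizer (P : Set G) := by
  have key : ∀ y : G, y ∈ P ↔ α⁻¹ y ∈ P := by
    intro y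
    rw [← mem_am, hP]
  have key2 : ∀ y : G, α y ∈ P ↔ y ∈ P := by
    intro y
    rw [key (α y), MulAut.inv_apply_self]
  rw [Subgroup.mem_normalizer_iff, Subgroup.mem_normalizer_iff]
  constructor
  · intro h y
    have h1 := h (α⁻¹ y)
    have h2 : α⁻¹ x * α⁻¹ y * (α⁻¹ x)⁻¹ = α⁻¹ (x * y * x⁻¹) := by
      rw [map_mul, map_mul, map_inv]
    rw [h2] at h1
    exact (key y).trans (h1.trans (key _).symm)
  · intro h y
    have h1 := h (α y)
    have h2 : α⁻¹ x * y * (α⁻¹ x)⁻¹ = α⁻¹ (x * α y * x⁻¹) := by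
      rw [map_mul, map_mul, map_inv, MulAut.inv_apply_self]
    rw [h2]
    exact (key2 y).symm.trans (h1.trans (key _))

theorem EAU_le {G : Type} [Group G] (p : ℕ) (α : MulAut G) (R : Subgroup G)
    (hR : IsOp p (⊤ : Subgroup G) R) : am α R ≤ R := by
  apply hR.2
  refine ⟨le_top, hR.1.2.1.map _, ?_⟩
  intro x _
  rw [Subgroup.mem_normalizer_iff]
  intro y
  have h1 : α⁻¹ x ∈ Subgroup.normalizer (R : Set G) := hR.1.2.2 (Subgroup.mem_top _)
  rw [Subgroup.mem_normalizer_iff] at h1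
  have h2 := h1 (α⁻¹ y)
  have h3 : α⁻¹ x * α⁻¹ y * (α⁻¹ x)⁻¹ = α⁻¹ (x * y * x⁻¹) := by
    rw [map_mul, map_mul, map_inv]
  rw [h3] at h2
  show y ∈ am α R ↔ x * y * x⁻¹ ∈ am α R
  rw [mem_am, mem_am]
  exact h2

theorem EAU (hIF : IF_stmt) : EAU_stmt := by
  intro p _ M G _ _ α
  refine ⟨?_, ?_, ?_⟩
  · intro C hC
    ext x
    rw [mem_am]
    unfold nrm
    simp only [Subgroup.mem_iInf]
    constructor
    · intro h P hP
      exact (EAU_nz α P (hC P hP) x).mp (h P hP)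
    · intro h P hP
      exact (EAU_nz α P (hC P hP) x).mpr (h P hP)
  · intro R hR
    apply le_antisymm (EAU_le p α R hR)
    have h1 := EAU_le p α⁻¹ R hR
    have h2 : am α (am α⁻¹ R) ≤ am α R := Subgroup.map_mono h1
    rwa [← am_mul, mul_inv_cancel, am_one] at h2
  · intro χ hχ g
    obtain ⟨-, hc, -⟩ := (hIF G ⊤).2 χ (IrrOn_top.mpr hχ)
    have h1 : funMap (al α g) χ = funMap α χ := by
      funext x
      show χ ((al α g)⁻¹ x) = χ (α⁻¹ x)
      rw [al_inv_apply, map_mul, map_mul, map_inv]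
      have h2 := hc (α⁻¹ g)⁻¹ (Subgroup.mem_top _) (α⁻¹ x)
      rw [inv_inv] at h2
      exact h2
    unfold Stb
    rw [h1]

end Pool.Agent.FI4E
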